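import Pool.Agent.Helper84.QB.Acts

/-!
# QB-D1, the one step lemma (and its dual)
-/

set_option autoImplicit false

namespace Pool.Agent.Helper33.QB

open Set

universe v

variable {Ω : Type} {I : Type v}

/-- Transport of paths along a labelling. -/
theorem h23_path {G G' : I → Ω → Ω → Prop} {c : Ω → FreeGroup I} {π : Ω → Ω}
    (hs : ∀ l v w, G' l v w → Acts G (c w * FreeGroup.of l * (c v)⁻¹) (π v) (π w))
    {g : FreeGroup I} {u v : Ω} (h : Acts G' g u v) :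
    Acts G (c v * g * (c u)⁻¹) (π u) (π v) := by
  induction h with
  | one x =>
    have : c x * 1 * (c x)⁻¹ = 1 := by group
    rw [this]
    exact Acts.one _
  | fwd hp he ih =>
    have := Acts.trans ih (hs _ _ _ he)
    convert this using 1
    group
  | bwd hp he ih =>
    have := Acts.trans ih (Acts.inv (hs _ _ _ he))
    convert this using 1
    group

/-- The general form: edges between `Z` and the fresh set `X` are added. -/
theorem h23_gen {R : Set (Set Ω)} (hRu : ∀ K ∈ R, ∀ K' ∈ R, K ∪ K' ∈ R)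
    {G G' : I → Ω → Ω → Prop} (hPF : PF G) (hF : Free G) (hP : Proper R G)
    {Z X KX K : Set Ω} (hK : K ∈ R) (hZ : Z ⊆ K) (hKX : KX ∈ R) (hX : X ⊆ KX)
    (h1 : ∀ x ∈ X, ∀ y ∈ K, ∀ g, ¬ Acts G g x y) (h2 : ∀ x ∈ X, ∀ y ∈ X, ∀ g, Acts G g x y → g = 1)
    {e : Ω → Ω} (he : MapsTo e X Z) {t : FreeGroup I}
    (hG : ∀ l v w, G' l v w → G l v w ∨ (v ∈ Z ∧ w ∈ X ∧ e w = v ∧ t * FreeGroup.of l = 1) ∨
      (v ∈ X ∧ w ∈ Z ∧ e v = w ∧ FreeGroup.of l * t⁻¹ = 1)) :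
    Free G' ∧ Proper R G' ∧ ∀ x ∈ K, ∀ y ∈ K, ∀ g, Acts G' g x y → Acts G g x y := by
  classical
  -- pendant points
  have huniq : ∀ u g x g' x', x ∈ X → x' ∈ X → Acts G g u x → Acts G g' u x' → g = g' ∧ x = x' := by
    intro u g x g' x' hx hx' ha ha'
    have h3 := Acts.trans (Acts.inv ha) ha'
    have h4 := h2 x hx x' hx' _ h3
    have h5 : g = g' := by
      have : g' = g' * g⁻¹ * g := by group
      rw [this, h4, one_mul]
    refine ⟨h5, ?_⟩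
    rw [h4] at h3
    exact acts_one_eq hPF h3
  have hnp : ∀ u ∈ K, ¬ ∃ g x, x ∈ X ∧ Acts G g u x := by
    rintro u hu ⟨g, x, hx, ha⟩
    exact h1 x hx u hu _ (Acts.inv ha)
  let P : Ω → Prop := fun u => ∃ g x, x ∈ X ∧ Acts G g u x
  let c : Ω → FreeGroup I := fun u => if h : P u then t * h.choose else 1
  let π : Ω → Ω := fun u => if h : P u then e h.choose_spec.choose else u
  have hcn : ∀ u, ¬ P u → c u = 1 ∧ π u = u := by
    intro u hu
    exact ⟨dif_neg hu, dif_neg hu⟩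
  have hcp : ∀ u g x, x ∈ X → Acts G g u x → c u = t * g ∧ π u = e x := by
    intro u g x hx ha
    have hu : P u := ⟨g, x, hx, ha⟩
    have hs := hu.choose_spec.choose_spec
    obtain ⟨e1, e2⟩ := huniq u _ _ _ _ hs.1 hx hs.2 ha
    have a1 : c u = t * hu.choose := dif_pos hu
    have a2 : π u = e hu.choose_spec.choose := dif_pos hu
    rw [a1, a2, e2]
    exact ⟨by rw [e1], rfl⟩
  have hst : ∀ l v w, G' l v w → Acts G (c w * FreeGroup.of l * (c v)⁻¹) (π v) (π w) := by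
    intro l v w hvw
    rcases hG l v w hvw with ho | ⟨hv, hw, e1, e2⟩ | ⟨hv, hw, e1, e2⟩
    · by_cases hpw : P w
      · obtain ⟨g, x, hx, ha⟩ := hpw
        obtain ⟨b1, b2⟩ := hcp w g x hx ha
        have ha' := Acts.trans (Acts.of ho) ha
        obtain ⟨b3, b4⟩ := hcp v _ x hx ha'
        rw [b1, b2, b3, b4]
        have : t * g * FreeGroup.of l * (t * (g * FreeGroup.of l))⁻¹ = 1 := by group
        rw [this]
        exact Acts.one _
      · have hpv : ¬ P v := by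
          rintro ⟨g, x, hx, ha⟩
          exact hpw ⟨_, x, hx, Acts.trans (Acts.inv (Acts.of ho)) ha⟩
        obtain ⟨b1, b2⟩ := hcn w hpw
        obtain ⟨b3, b4⟩ := hcn v hpv
        rw [b1, b2, b3, b4]
        have : (1 : FreeGroup I) * FreeGroup.of l * 1⁻¹ = FreeGroup.of l := by group
        rw [this]
        exact Acts.of ho
    · obtain ⟨b1, b2⟩ := hcp w 1 w hw (Acts.one w)
      obtain ⟨b3, b4⟩ := hcn v (hnp v (hZ hv))
      rw [b1, b2, b3, b4, e1]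
      have : t * 1 * FreeGroup.of l * 1⁻¹ = 1 := by
        rw [mul_one, inv_one, mul_one]; exact e2
      rw [this]
      exact Acts.one _
    · obtain ⟨b1, b2⟩ := hcp v 1 v hv (Acts.one v)
      obtain ⟨b3, b4⟩ := hcn w (hnp w (hZ hw))
      rw [b1, b2, b3, b4, e1]
      have : 1 * FreeGroup.of l * (t * 1)⁻¹ = 1 := by
        rw [mul_one, one_mul]; exact e2
      rw [this]
      exact Acts.one _
  refine ⟨?_, ?_, ?_⟩
  · intro g x hg
    have h3 := hF _ _ (h23_path hst hg)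
    have h4 : g = (c x)⁻¹ * (c x * g * (c x)⁻¹) * c x := by group
    rw [h4, h3]
    group
  · intro K' hK'
    have hD := hP _ (hRu K' hK' K hK)
    have hE := hP _ (hRu K' hK' KX hKX)
    set D := {g | ∃ x ∈ K' ∪ K, ∃ y ∈ K' ∪ K, Acts G g x y} with hDd
    set E := {g | ∃ x ∈ K' ∪ KX, ∃ y ∈ K' ∪ KX, Acts G g x y} with hEd
    have hC : (insert 1 ((fun g => t * g) '' E)).Finite := (hE.image _).insert _
    have hc : ∀ x ∈ K', c x ∈ insert 1 ((fun g => t * g) '' E) ∧ π x ∈ K' ∪ K := by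
      intro x hx
      by_cases hp : P x
      · obtain ⟨g, y, hy, ha⟩ := hp
        obtain ⟨b1, b2⟩ := hcp x g y hy ha
        rw [b1, b2]
        exact ⟨Or.inr ⟨g, ⟨x, Or.inl hx, y, Or.inr (hX hy), ha⟩, rfl⟩, Or.inr (hZ (he hy))⟩
      · obtain ⟨b1, b2⟩ := hcn x hp
        rw [b1, b2]
        exact ⟨Or.inl rfl, Or.inl hx⟩
    refine ((hC.prod (hD.prod hC)).image fun q => q.1⁻¹ * q.2.1 * q.2.2).subset ?_
    rintro g ⟨x, hx, y, hy, ha⟩
    refine ⟨(c y, c y * g * (c x)⁻¹, c x), ⟨(hc y hy).1, ⟨π x, (hc x hx).2, π y, (hc y hy).2,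
      h23_path hst ha⟩, (hc x hx).1⟩, ?_⟩
    show (c y)⁻¹ * (c y * g * (c x)⁻¹) * c x = g
    group
  · intro x hx y hy g hg
    have h3 := h23_path hst hg
    obtain ⟨b1, b2⟩ := hcn x (hnp x hx)
    obtain ⟨b3, b4⟩ := hcn y (hnp y hy)
    rw [b1, b2, b3, b4] at h3
    have : (1 : FreeGroup I) * g * 1⁻¹ = g := by group
    rwa [this] at h3

/-- New edges `x → h x` (`x ∈ Z`), the fresh side is the range `X`. -/
theorem one_step {R : Set (Set Ω)} (hRu : ∀ K ∈ R, ∀ K' ∈ R, K ∪ K' ∈ R)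
    {G : I → Ω → Ω → Prop} (hPF : PF G) (hF : Free G) (hP : Proper R G) {i : I}
    {Z X KX K : Set Ω} (hK : K ∈ R) (hZ : Z ⊆ K) (hKX : KX ∈ R) (hX : X ⊆ KX)
    (h1 : ∀ x ∈ X, ∀ y ∈ K, ∀ g, ¬ Acts G g x y) (h2 : ∀ x ∈ X, ∀ y ∈ X, ∀ g, Acts G g x y → g = 1)
    {h : Ω → Ω} (hh : BijOn h Z X) (hd : ∀ x ∈ Z, ∀ y, ¬ G i x y) (hr : ∀ x ∈ X, ∀ y, ¬ G i y x) :
    PF (addE G i Z h) ∧ Free (addE G i Z h) ∧ Proper R (addE G i Z h) ∧
      ∀ x ∈ K, ∀ y ∈ K, ∀ g, Acts (addE G i Z h) g x y → Acts G g x y := by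
  classical
  refine ⟨⟨?_, ?_⟩, ?_⟩
  · rintro l x y z (a | ⟨rfl, a1, a2⟩) (b | ⟨b0, b1, b2⟩)
    · exact hPF.1 l x y z a b
    · subst b0; exact absurd a (hd x b1 y)
    · exact absurd b (hd x a1 z)
    · rw [a2, b2]
  · rintro l x y z (a | ⟨rfl, a1, a2⟩) (b | ⟨b0, b1, b2⟩)
    · exact hPF.2 l x y z a b
    · subst b0; exact absurd a (hr z (b2 ▸ hh.mapsTo b1) x)
    · exact absurd b (hr z (a2 ▸ hh.mapsTo a1) y)
    · exact hh.injOn a1 b1 (a2.symm.trans b2)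
  · rcases isEmpty_or_nonempty Ω with hE | hN
    · refine ⟨fun g x => (hE.false x).elim, fun K' _ => ?_, fun x => (hE.false x).elim⟩
      refine Set.Finite.subset Set.finite_empty ?_
      rintro g ⟨x, _⟩
      exact (hE.false x).elim
    have hinv : ∀ x ∈ X, Function.invFunOn h Z x ∈ Z ∧ h (Function.invFunOn h Z x) = x := by
      intro x hx
      obtain ⟨z, hz, hzx⟩ := hh.surjOn hx
      exact ⟨Function.invFunOn_mem ⟨z, hz, hzx⟩, Function.invFunOn_eq ⟨z, hz, hzx⟩⟩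
    refine h23_gen hRu hPF hF hP hK hZ hKX hX h1 h2 (e := Function.invFunOn h Z)
      (t := (FreeGroup.of i)⁻¹) (fun x hx => (hinv x hx).1) ?_
    rintro l v w (a | ⟨rfl, a1, a2⟩)
    · exact Or.inl a
    · refine Or.inr (Or.inl ⟨a1, a2 ▸ hh.mapsTo a1, ?_, inv_mul_cancel _⟩)
      have hw : w ∈ X := a2 ▸ hh.mapsTo a1
      exact hh.injOn (hinv w hw).1 a1 ((hinv w hw).2.trans a2)

/-- New edges `x → h x` (`x ∈ X`), the fresh side is the domain `X` (the dual, for QB-D2). -/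
theorem h23_one_step' {R : Set (Set Ω)} (hRu : ∀ K ∈ R, ∀ K' ∈ R, K ∪ K' ∈ R)
    {G : I → Ω → Ω → Prop} (hPF : PF G) (hF : Free G) (hP : Proper R G) {i : I}
    {Z X KX K : Set Ω} (hK : K ∈ R) (hZ : Z ⊆ K) (hKX : KX ∈ R) (hX : X ⊆ KX)
    (h1 : ∀ x ∈ X, ∀ y ∈ K, ∀ g, ¬ Acts G g x y) (h2 : ∀ x ∈ X, ∀ y ∈ X, ∀ g, Acts G g x y → g = 1)
    {h : Ω → Ω} (hh : BijOn h X Z) (hd : ∀ x ∈ X, ∀ y, ¬ G i x y) (hr : ∀ x ∈ Z, ∀ y, ¬ G i y x) :
    PF (addE G i X h) ∧ Free (addE G i X h) ∧ Proper R (addE G i X h) ∧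
      ∀ x ∈ K, ∀ y ∈ K, ∀ g, Acts (addE G i X h) g x y → Acts G g x y := by
  refine ⟨⟨?_, ?_⟩, ?_⟩
  · rintro l x y z (a | ⟨rfl, a1, a2⟩) (b | ⟨b0, b1, b2⟩)
    · exact hPF.1 l x y z a b
    · subst b0; exact absurd a (hd x b1 y)
    · exact absurd b (hd x a1 z)
    · rw [a2, b2]
  · rintro l x y z (a | ⟨rfl, a1, a2⟩) (b | ⟨b0, b1, b2⟩)
    · exact hPF.2 l x y z a b
    · subst b0; exact absurd a (hr z (b2 ▸ hh.mapsTo b1) x)
    · exact absurd b (hr z (a2 ▸ hh.mapsTo a1) y)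
    · exact hh.injOn a1 b1 (a2.symm.trans b2)
  · refine h23_gen hRu hPF hF hP hK hZ hKX hX h1 h2 (e := h)
      (t := FreeGroup.of i) hh.mapsTo ?_
    rintro l v w (a | ⟨rfl, a1, a2⟩)
    · exact Or.inl a
    · exact Or.inr (Or.inr ⟨a1, a2 ▸ hh.mapsTo a1, a2.symm, mul_inv_cancel _⟩)

end Pool.Agent.Helper33.QB
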